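import Pool.Agent.H98.RFZ.Targets
import Pool.Agent.H98.RFC.Targets

/-!
# END: short paths are unlikely implies exponential decay
-/

set_option autoImplicit false

noncomputable section

open MeasureTheory ProbabilityTheory Filter Topology

namespace Pool.Agent.H32.RFZ

open Pool.Agent.H98.RFC Pool.Agent.H98.RFZ

theorem pf_END (hMAIN : P_MAIN) (hMON : P_MON) (hREC : P_REC) (hALL : T_ALL) : P_END := by
  intro R J hJ ε hε
  have hJt : 0 ≤ Jt R J := Finset.sum_nonneg fun z _ => hJ.nonneg z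
  set a : ℝ := 256 * (16 * R + 8) * Jt R J with ha
  have ha0 : 0 ≤ a := by rw [ha]; positivity
  refine ⟨max 1 ((500 * a / ε) ^ 2), le_max_left _ _, ?_⟩
  intro p K w₀ hp hK hSP
  have hK1 : 1 ≤ K := (le_max_left _ _).trans hK
  have hK2 : (500 * a / ε) ^ 2 ≤ K := (le_max_right _ _).trans hK
  have hK0 : 0 < K := by linarith
  set r : ℝ := Real.sqrt K with hr
  have hr0 : 0 < r := Real.sqrt_pos.mpr hK0
  have hr1 : 500 * a / ε ≤ r := Real.le_sqrt_of_sq_le hK2
  have hra : 1000 * a ≤ 2 * ε * r := by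
    rw [div_le_iff₀ hε] at hr1
    linarith
  set b : ℝ := 64 * Jt R J * K / (2 * ε * r) with hb
  have hb0 : 0 ≤ b := by rw [hb]; positivity
  set m : ℝ → ℝ := fun w => mK R J ε p K (max w 0) with hm
  set q : ℝ → ℝ := fun w => b * (gam {η | SP R J (fun x => ε * η x) p K w}).toReal with hq
  set w₁ : ℝ := max (max w₀ (20 * R + 20)) (max b 1) with hw₁
  have e1 : w₀ ≤ w₁ := (le_max_left _ _).trans (le_max_left _ _)
  have e2 : (20 * R + 20 : ℝ) ≤ w₁ := (le_max_right _ _).trans (le_max_left _ _)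
  have e3 : b ≤ w₁ := (le_max_left _ _).trans (le_max_right _ _)
  have e4 : 1 ≤ w₁ := (le_max_right _ _).trans (le_max_right _ _)
  have hmon := fun w (hw : 0 ≤ w) => hMON R J hJ ε hε.ne' p K w hp hK1 hw
  obtain ⟨C, hC⟩ := hREC m q w₁ (by linarith)
    (fun w => ⟨(hmon (max w 0) (le_max_right _ _)).1, (hmon (max w 0) (le_max_right _ _)).2.1⟩)
    (fun w w' hw hww => (hmon (max w 0) (le_max_right _ _)).2.2.1 (max w' 0)
      (max_le_max_right 0 hww))
    (by
      intro w hw
      have hw0 : 0 < w := by linarith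
      have h1 := hMAIN R J hJ ε hε p K w hp hK1 (e2.trans hw)
      have h2 : m (5 * w) = mK R J ε p K (5 * w) := by
        simp only [hm]
        rw [max_eq_left (by linarith)]
      have h3 : m (w / 2) = mK R J ε p K (w / 2) := by
        simp only [hm]
        rw [max_eq_left (by linarith)]
      rw [h2, h3]
      set A := mK R J ε p K (w / 2) with hA
      set P := (gam {η | SP R J (fun x => ε * η x) p K w}).toReal with hP
      have hA0 : 0 ≤ A := (hmon (w / 2) (by linarith)).1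
      have hpos : 0 < 2 * ε * r := by positivity
      have h4 : mK R J ε p K (5 * w) * (2 * ε * r) ≤
          (1 / 1000 * A + w * (b * P)) * (2 * ε * r) := by
        have h5 : w * (b * P) * (2 * ε * r) = 64 * Jt R J * K * w * P := by
          rw [hb]
          field_simp
        have h6 : a * A ≤ 1 / 1000 * A * (2 * ε * r) := by
          nlinarith [mul_le_mul_of_nonneg_right hra hA0]
        calc mK R J ε p K (5 * w) * (2 * ε * r) = 2 * ε * r * mK R J ε p K (5 * w) := by ring
          _ ≤ a * A + 64 * Jt R J * K * w * P := h1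
          _ ≤ 1 / 1000 * A * (2 * ε * r) + w * (b * P) * (2 * ε * r) := by rw [h5]; linarith
          _ = _ := by ring
      exact le_of_mul_le_mul_right h4 hpos)
    (by
      intro w hw
      have hw0 : 0 < w := by linarith
      have h1 := hSP w (e1.trans hw)
      simp only [hq]
      calc b * (gam {η | SP R J (fun x => ε * η x) p K w}).toReal ≤ w * (w ^ 5)⁻¹ :=
            mul_le_mul (e3.trans hw) h1 ENNReal.toReal_nonneg hw0.le
        _ = (w ^ 4)⁻¹ := by
          field_simp)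
  -- `mag L ≤ C' / L^2`
  by_contra hne
  have h2 := (hALL R).2.1 J hJ 0 ε le_rfl hne
  obtain ⟨n, hn⟩ := exists_nat_gt (max (1 + K) (4 * R * (3 * R + 5) * (|C| * (1 + K) ^ 2) + 1))
  have hn1 : 1 + K < n := (le_max_left _ _).trans_lt hn
  have hn2 : 4 * R * (3 * R + 5) * (|C| * (1 + K) ^ 2) + 1 < n := (le_max_right _ _).trans_lt hn
  have hK3 : 0 < 1 + K := by linarith
  have hnpos : (0 : ℝ) < n := by linarith
  have h3 := (hmon ((n : ℝ) / (1 + K)) (by positivity)).2.2.2 n
    (by rw [mul_div_cancel₀ _ hK3.ne'])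
  have h4 := hC ((n : ℝ) / (1 + K)) (by rw [le_div_iff₀ hK3]; linarith)
  simp only [hm] at h4
  rw [max_eq_left (by positivity)] at h4
  have h5 : mag R J 0 ε n ≤ |C| * (1 + K) ^ 2 / (n : ℝ) ^ 2 := by
    calc mag R J 0 ε n ≤ C / ((n : ℝ) / (1 + K)) ^ 2 := h3.trans h4
      _ = C * (1 + K) ^ 2 / (n : ℝ) ^ 2 := by
        field_simp
      _ ≤ |C| * (1 + K) ^ 2 / (n : ℝ) ^ 2 := by
        refine div_le_div_of_nonneg_right ?_ (by positivity)
        exact mul_le_mul_of_nonneg_right (le_abs_self C) (by positivity)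
  have h6 := h2 n
  have hn3 : (1 : ℝ) ≤ n := by linarith
  have h7 : (4 * R * (4 * n + 3 * R + 1) : ℝ) ≤ 4 * R * (3 * R + 5) * n := by
    have hR : (0 : ℝ) ≤ R := Nat.cast_nonneg R
    have h8 : (4 * n + 3 * R + 1 : ℝ) ≤ (3 * R + 5) * n := by nlinarith
    calc (4 * R * (4 * n + 3 * R + 1) : ℝ) ≤ 4 * R * ((3 * R + 5) * n) :=
          mul_le_mul_of_nonneg_left h8 (by positivity)
      _ = _ := by ring
  have h9 : (4 * R * (4 * n + 3 * R + 1) : ℝ) * mag R J 0 ε n ≤
      (4 * R * (3 * R + 5) * n) * (|C| * (1 + K) ^ 2 / (n : ℝ) ^ 2) := by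
    have hR : (0 : ℝ) ≤ (4 * R * (4 * n + 3 * R + 1) : ℝ) := by positivity
    exact (mul_le_mul_of_nonneg_left h5 hR).trans
      (mul_le_mul_of_nonneg_right h7 (by positivity))
  have h10 : (4 * R * (3 * R + 5) * n) * (|C| * (1 + K) ^ 2 / (n : ℝ) ^ 2) =
      (4 * R * (3 * R + 5) * (|C| * (1 + K) ^ 2)) / (n : ℝ) := by
    field_simp
  rw [h10] at h9
  have h11 : (4 * R * (3 * R + 5) * (|C| * (1 + K) ^ 2)) / (n : ℝ) < 1 := by
    rw [div_lt_one hnpos]
    linarith
  linarith

end Pool.Agent.H32.RFZ
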