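import Pool.Agent.H98.RFZ.Targets2

/-!
# NQ: `Nq` is a norm
-/

set_option autoImplicit false

noncomputable section

open MeasureTheory ProbabilityTheory Filter Topology

namespace Pool.Agent.H32.RFZ

open Pool.Agent.H98.RFC Pool.Agent.H98.RFZ

theorem gf_identity (p x : Site) :
    (gdot p x : ℝ) ^ 2 + (fdet p x : ℝ) ^ 2 = (nsq p : ℝ) * (nsq x : ℝ) := by
  unfold gdot fdet nsq
  push_cast
  ring

theorem nsq_nonneg' (x : Site) : (0 : ℝ) ≤ (nsq x : ℝ) := by
  unfold nsq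
  push_cast
  positivity

theorem nsq_pos' {p : Site} (hp : p ≠ 0) : (0 : ℝ) < (nsq p : ℝ) := by
  rcases (nsq_nonneg' p).lt_or_eq with h | h
  · exact h
  · exfalso
    apply hp
    have h1 : (nsq p : ℤ) = 0 := by exact_mod_cast h.symm
    unfold nsq at h1
    have h2 : p.1 = 0 := by nlinarith [sq_nonneg p.1, sq_nonneg p.2]
    have h3 : p.2 = 0 := by nlinarith [sq_nonneg p.1, sq_nonneg p.2]
    exact Prod.ext h2 h3

theorem nrm_pos' {p : Site} (hp : p ≠ 0) : 0 < nrm p := Real.sqrt_pos.mpr (nsq_pos' hp)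

theorem nrm_mul (p x : Site) :
    nrm x * nrm p = Real.sqrt ((gdot p x : ℝ) ^ 2 + (fdet p x : ℝ) ^ 2) := by
  rw [gf_identity, Real.sqrt_mul (nsq_nonneg' p), mul_comm]
  rfl

/-- Minkowski's inequality in the plane -/
theorem mink (a b g f g' f' : ℝ) (ha : 0 ≤ a) (hb : 0 ≤ b) :
    Real.sqrt (a * (g + g') ^ 2 + b * (f + f') ^ 2) ≤
      Real.sqrt (a * g ^ 2 + b * f ^ 2) + Real.sqrt (a * g' ^ 2 + b * f' ^ 2) := by
  have h1 : 0 ≤ a * g ^ 2 + b * f ^ 2 := by positivity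
  have h2 : 0 ≤ a * g' ^ 2 + b * f' ^ 2 := by positivity
  have h3 : a * g * g' + b * f * f' ≤
      Real.sqrt (a * g ^ 2 + b * f ^ 2) * Real.sqrt (a * g' ^ 2 + b * f' ^ 2) := by
    rw [← Real.sqrt_mul h1]
    refine Real.le_sqrt_of_sq_le ?_
    nlinarith [mul_nonneg (mul_nonneg ha hb) (sq_nonneg (g * f' - g' * f))]
  rw [Real.sqrt_le_left (by positivity)]
  have e1 := Real.sq_sqrt h1
  have e2 := Real.sq_sqrt h2
  nlinarith

theorem pf_NQ : B_NQ := by
  intro p a b α β hp hα hβ ha1 ha2 hb1 hb2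
  have ha : 0 ≤ a := le_trans (sq_nonneg α) ha1
  have hb : 0 ≤ b := le_trans (sq_nonneg α) hb1
  have hpp := nrm_pos' hp
  refine ⟨⟨?_, ?_, ?_⟩, ?_, ?_⟩
  · intro x y
    unfold Nq
    rw [← add_div]
    refine div_le_div_of_nonneg_right ?_ hpp.le
    have e1 : (gdot p (x + y) : ℝ) = (gdot p x : ℝ) + (gdot p y : ℝ) := by
      unfold gdot
      rw [Prod.fst_add, Prod.snd_add]
      push_cast
      ring
    have e2 : (fdet p (x + y) : ℝ) = (fdet p x : ℝ) + (fdet p y : ℝ) := by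
      unfold fdet
      rw [Prod.fst_add, Prod.snd_add]
      push_cast
      ring
    rw [e1, e2]
    exact mink a b _ _ _ _ ha hb
  · intro x
    unfold Nq
    have e1 : (gdot p (-x) : ℝ) = -(gdot p x : ℝ) := by
      unfold gdot
      rw [Prod.fst_neg, Prod.snd_neg]
      push_cast
      ring
    have e2 : (fdet p (-x) : ℝ) = -(fdet p x : ℝ) := by
      unfold fdet
      rw [Prod.fst_neg, Prod.snd_neg]
      push_cast
      ring
    rw [e1, e2, neg_sq, neg_sq]
  · intro x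
    unfold Nq
    rw [le_div_iff₀ hpp, div_le_iff₀ hpp, mul_assoc, mul_assoc, nrm_mul]
    constructor
    · refine Real.le_sqrt_of_sq_le ?_
      rw [mul_pow, Real.sq_sqrt (by positivity)]
      nlinarith [mul_le_mul_of_nonneg_right ha1 (sq_nonneg (gdot p x : ℝ)),
        mul_le_mul_of_nonneg_right hb1 (sq_nonneg (fdet p x : ℝ))]
    · rw [Real.sqrt_le_left (by positivity), mul_pow, Real.sq_sqrt (by positivity)]
      nlinarith [mul_le_mul_of_nonneg_right ha2 (sq_nonneg (gdot p x : ℝ)),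
        mul_le_mul_of_nonneg_right hb2 (sq_nonneg (fdet p x : ℝ))]
  · intro x
    unfold Nq
    rw [div_eq_iff hpp.ne', mul_assoc, nrm_mul, ← Real.sqrt_mul ha, mul_add]
  · intro x
    unfold Nq
    refine div_le_div_of_nonneg_right ?_ hpp.le
    refine Real.le_sqrt_of_sq_le ?_
    rw [mul_pow, Real.sq_sqrt hb, sq_abs]
    nlinarith [mul_nonneg ha (sq_nonneg (gdot p x : ℝ))]

end Pool.Agent.H32.RFZ
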