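import Pool.Agent.H98.RFZ.Targets

/-!
# REC: a relative decay inequality gives a power larger than 1
-/

set_option autoImplicit false

noncomputable section

open MeasureTheory ProbabilityTheory Filter Topology

namespace Pool.Agent.H32.RFZ

open Pool.Agent.H98.RFC Pool.Agent.H98.RFZ

theorem pf_REC : P_REC := by
  intro m q w₀ hw₀ hm _ hrec hq
  set W₁ : ℝ := max 1 w₀ with hW₁
  have hW1 : 1 ≤ W₁ := le_max_left _ _
  have hW0 : w₀ ≤ W₁ := le_max_right _ _
  set C : ℝ := 100 * W₁ ^ 2 with hC
  have hC100 : 100 ≤ C := by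
    rw [hC]
    nlinarith
  have key : ∀ n : ℕ, ∀ W : ℝ, 1 ≤ W → W ≤ 10 ^ n * (10 * W₁) → W ^ 2 * m W ≤ C := by
    intro n
    induction n with
    | zero =>
      intro W h1 h2
      rw [pow_zero, one_mul] at h2
      calc W ^ 2 * m W ≤ W ^ 2 * 1 := mul_le_mul_of_nonneg_left (hm W).2 (sq_nonneg W)
        _ ≤ C := by
          rw [hC]
          nlinarith
    | succ n ih =>
      intro W h1 h2
      by_cases h3 : W ≤ 10 * W₁
      · calc W ^ 2 * m W ≤ W ^ 2 * 1 := mul_le_mul_of_nonneg_left (hm W).2 (sq_nonneg W)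
          _ ≤ C := by
            rw [hC]
            nlinarith
      · rw [not_le] at h3
        have h4 := ih (W / 10) (by linarith) (by
          rw [pow_succ] at h2
          linarith)
        have h5 : w₀ ≤ W / 5 := by linarith
        have h6 := hrec (W / 5) h5
        have h7 := hq (W / 5) h5
        rw [show 5 * (W / 5) = W by ring, show W / 5 / 2 = W / 10 by ring] at h6
        have hWpos : 0 < W := by linarith
        have h8 : W / 5 * q (W / 5) ≤ 125 / W ^ 3 := by
          calc W / 5 * q (W / 5) ≤ W / 5 * ((W / 5) ^ 4)⁻¹ :=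
                mul_le_mul_of_nonneg_left h7 (by positivity)
            _ = 125 / W ^ 3 := by
              field_simp
              norm_num
        have h9 : W ^ 2 * (125 / W ^ 3) ≤ 12.5 := by
          rw [show W ^ 2 * (125 / W ^ 3) = 125 / W by field_simp, div_le_iff₀ hWpos]
          linarith
        calc W ^ 2 * m W ≤ W ^ 2 * (1 / 1000 * m (W / 10) + 125 / W ^ 3) :=
              mul_le_mul_of_nonneg_left (by linarith) (sq_nonneg W)
          _ = 1 / 10 * ((W / 10) ^ 2 * m (W / 10)) + W ^ 2 * (125 / W ^ 3) := by ring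
          _ ≤ 1 / 10 * C + 12.5 := by linarith
          _ ≤ C := by linarith
  refine ⟨C, fun w hw => ?_⟩
  rw [le_div_iff₀ (by positivity), mul_comm]
  obtain ⟨n, hn⟩ := pow_unbounded_of_one_lt w (show (1 : ℝ) < 10 by norm_num)
  refine key n w hw (hn.le.trans ?_)
  have : (0 : ℝ) < 10 ^ n := by positivity
  nlinarith

end Pool.Agent.H32.RFZ
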